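import Pool.Agent.H26.Adj2

set_option autoImplicit false

namespace Pool.Agent.Results.MP_61d686_an.Counterexample

open Set

def E (x : ℕ → ℝ) (S : Set ℕ) : Set ℝ := {s | ∃ B ⊆ S, s = ∑' n, B.indicator x n}

def Cantorval (K : Set ℝ) : Prop :=
  K.Nonempty ∧ IsCompact K ∧ closure (interior K) = K ∧
    ∀ p ∈ K, (connectedComponentIn K p).Nontrivial →
      sInf (connectedComponentIn K p) ∈ closure {y ∈ K | connectedComponentIn K y = {y}} ∧
      sSup (connectedComponentIn K p) ∈ closure {y ∈ K | connectedComponentIn K y = {y}}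

open Pool.Agent.H26.Subsum Pool.Agent.H26.Adj

lemma anti : Antitone y := by
  have key : ∀ n, y (n + 1) ≤ y n ∧ y (n + 1 + 1) ≤ y (n + 1) ∧ y (n + 1 + 1 + 1) ≤ y (n + 1 + 1) ∧
      y (n + 1 + 1 + 1 + 1) ≤ y (n + 1 + 1 + 1) := by
    intro n
    induction n with
    | zero => norm_num [y]
    | succ n ih =>
      refine ⟨ih.2.1, ih.2.2.1, ih.2.2.2, ?_⟩
      rw [y_shift, y_shift]
      linarith [ih.1]
  exact antitone_nat_of_succ_le fun n => (key n).1

theorem result : ∃ x : ℕ → ℝ, (∀ n, 0 < x n) ∧ Antitone x ∧ Summable x ∧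
    Cantorval (E x univ) ∧ (∀ A : Set ℕ, A.Infinite → IsEmpty (E x Aᶜ ≃ₜ E x univ)) ∧
    {n | x n < ∑' k, x (n + 2 + k)}.Infinite := by
  classical
  have e : E y univ = Es y :=
    Set.ext fun s => ⟨fun ⟨B, _, h⟩ => ⟨B, h⟩, fun ⟨B, h⟩ => ⟨B, subset_univ _, h⟩⟩
  refine ⟨y, y_pos, anti, y_sum, ?_, fun A hA => ⟨fun φ => ?_⟩, ?_⟩
  · rw [e]
    exact ⟨⟨0, Es_zero y⟩, E_cpt, Subset.antisymm
      (closure_minimal interior_subset E_cpt.isClosed) regY, fun p hp _ => ends p hp⟩
  · have hz : Sub (Aᶜ.indicator y) := fun n => by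
      by_cases h : n ∈ Aᶜ
      · exact Or.inr (indicator_of_mem h _)
      · exact Or.inl (indicator_of_notMem h _)
    have hsub : E y Aᶜ ⊆ Es (Aᶜ.indicator y) := by
      rintro _ ⟨B, hB, rfl⟩
      exact ⟨B, by rw [indicator_indicator, inter_eq_left.mpr hB]⟩
    have hm : ∀ t : Icc (45 / 8 : ℝ) 18, t.1 ∈ E y univ := fun t => e ▸ mid t.2
    let g : Icc (45 / 8 : ℝ) 18 → ℝ := fun t => (φ.symm ⟨t.1, hm t⟩).1
    have gc : Continuous g :=
      continuous_subtype_val.comp (φ.symm.continuous.comp (continuous_subtype_val.subtype_mk _))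
    have : PreconnectedSpace (Icc (45 / 8 : ℝ) 18) := Subtype.preconnectedSpace isPreconnected_Icc
    have oc := (isPreconnected_range gc).ordConnected
    have hr : range g ⊆ Es (Aᶜ.indicator y) := by
      rintro _ ⟨t, rfl⟩
      exact hsub (φ.symm ⟨t.1, hm t⟩).2
    have hinf : {n | Aᶜ.indicator y n = 0}.Infinite :=
      hA.mono fun n hn => indicator_of_notMem (fun h : n ∈ Aᶜ => h hn) _
    have hne : g ⟨6, by norm_num, by norm_num⟩ ≠ g ⟨7, by norm_num, by norm_num⟩ := by
      intro h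
      have := congrArg Subtype.val (φ.symm.injective (Subtype.ext h))
      norm_num at this
    rcases lt_or_gt_of_ne hne with h | h
    · exact no_interval _ hz hinf _ _ h
        ((oc.out (mem_range_self _) (mem_range_self _)).trans hr)
    · exact no_interval _ hz hinf _ _ h
        ((oc.out (mem_range_self _) (mem_range_self _)).trans hr)
  · refine infinite_of_forall_exists_gt fun m => ⟨4 * (m + 1), ?_, by omega⟩
    have hs : Summable fun k => y (4 * (m + 1) + 2 + k) := by
      simpa only [add_comm] using (summable_nat_add_iff (4 * (m + 1) + 2)).mpr y_sum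
    refine lt_of_lt_of_le ?_ (hs.sum_le_tsum (Finset.range 2) fun i _ => (y_pos _).le)
    rw [Finset.sum_range_succ, Finset.sum_range_one]
    unfold y
    rw [show 4 * (m + 1) % 4 = 0 by omega, show (4 * (m + 1) + 2 + 0) % 4 = 2 by omega,
      show (4 * (m + 1) + 2 + 1) % 4 = 3 by omega, show 4 * (m + 1) / 4 = m + 1 by omega,
      show (4 * (m + 1) + 2 + 0) / 4 = m + 1 by omega,
      show (4 * (m + 1) + 2 + 1) / 4 = m + 1 by omega]
    have := (q_bd (m + 1)).1
    norm_num only [if_true, if_false]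
    linarith

end Pool.Agent.Results.MP_61d686_an.Counterexample
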